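import Pool.Agent.Lib.MP_ec05f5_lc.Ess.Projections

/-!
# Essential equivalence of operators is not Borel reducible to `ℝ^ℕ / c₀`

Idea of the proof. To an isometry `V` of `H` one associates the projection onto the range of
`(J₀ V + J₁) / √2`, where `J₀`, `J₁` are isometries with orthogonal ranges; differences of these
projections are compact exactly when the differences of the isometries are. So let `f` be a Borel
reduction defined on the Polish space of isometries (strong operator topology).

* A countable group `Q` of unitaries `q` which fix almost all basis vectors acts by `V ↦ V q`. Let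
  `G` be its closure in the operator norm. Baire category on pairs `(g, V)` in `G × Iso` shows: for
  `ε > 0` and generic `V` there are `δ` and `N` such that `|f(Wq)_n - f(W)_n| ≤ ε` for all `n ≥ N`,
  all generic `W` near `V` and all `q ∈ Q` with `‖q - 1‖ < δ`.
* There are self-adjoint matrices of norm one all of whose corners `P_j S (1 - P_j)` have norm at
  most `1/√L` (unboundedness of triangular truncation). Their Cayley transforms, placed on basis
  vectors which are chosen one by one, give `q ∈ Q` which moves a unit vector by `√2` although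
  `|f(Vq)_n - f(V)_n| ≤ 4ε` for all `n`: for given `n` compare with the product of the unitaries of
  the two diagonal blocks, cut at the place which belongs to `n`.
* An infinite product of such steps gives `Z` with `f(Z) - f(V) → 0` and `Z - V` not compact.
-/

set_option autoImplicit false

namespace Pool.Agent.Results.MP_ec05f5_lc.EssentialNotReducible

open Pool.Agent.Lib.MP_ec05f5_lc MeasureTheory Filter Topology

universe u v

theorem result (H : Type u) [NormedAddCommGroup H] [InnerProductSpace ℂ H] [CompleteSpace H]
    [TopologicalSpace.SeparableSpace H] (hH : ¬ FiniteDimensional ℂ H) :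
    (¬ ∃ F : (H →L[ℂ] H) → (ℕ → ℝ), Measurable[weakBorel H] F ∧
      ∀ a b : H →L[ℂ] H, IsCompactOperator (a - b : H →L[ℂ] H) ↔
        Tendsto (fun n => F a n - F b n) atTop (𝓝 0)) ∧
    (¬ ∃ F : {p : H →L[ℂ] H // IsStarProjection p} → (ℕ → ℝ),
      Measurable[(weakBorel H).comap Subtype.val] F ∧
      ∀ p q : {p : H →L[ℂ] H // IsStarProjection p},
        IsCompactOperator (p.1 - q.1 : H →L[ℂ] H) ↔
          Tendsto (fun n => F p n - F q n) atTop (𝓝 0)) ∧
    ∀ (X : ℕ → Type v) [∀ n, PseudoMetricSpace (X n)]
      [∀ n, TopologicalSpace.SeparableSpace (X n)],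
      ¬ ∃ F : {p : H →L[ℂ] H // IsStarProjection p} → ∀ n, X n,
        (∀ n, Measurable[(weakBorel H).comap Subtype.val, borel (X n)] fun p => F p n) ∧
        ∀ p q : {p : H →L[ℂ] H // IsStarProjection p},
          IsCompactOperator (p.1 - q.1 : H →L[ℂ] H) ↔
            Tendsto (fun n => dist (F p n) (F q n)) atTop (𝓝 0) := by
  have key : ∀ (X : ℕ → Type v) [∀ n, PseudoMetricSpace (X n)]
      [∀ n, TopologicalSpace.SeparableSpace (X n)],
      ¬ ∃ F : {p : H →L[ℂ] H // IsStarProjection p} → ∀ n, X n,
        (∀ n, Measurable[(weakBorel H).comap Subtype.val, borel (X n)] fun p => F p n) ∧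
        ∀ p q : {p : H →L[ℂ] H // IsStarProjection p},
          IsCompactOperator (p.1 - q.1 : H →L[ℂ] H) ↔
            Tendsto (fun n => dist (F p n) (F q n)) atTop (𝓝 0) := by
    rintro X _ _ ⟨F, hF, h⟩
    have : ∀ n, SecondCountableTopology (X n) := fun n =>
      UniformSpace.secondCountable_of_separable (X n)
    exact Ess.not_reducible_projections hH F hF h
  have hP : ¬ ∃ F : {p : H →L[ℂ] H // IsStarProjection p} → (ℕ → ℝ),
      Measurable[(weakBorel H).comap Subtype.val] F ∧
      ∀ p q : {p : H →L[ℂ] H // IsStarProjection p},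
        IsCompactOperator (p.1 - q.1 : H →L[ℂ] H) ↔
          Tendsto (fun n => F p n - F q n) atTop (𝓝 0) := by
    rintro ⟨F, hF, h⟩
    refine Ess.not_reducible_projections hH (X := fun _ => ℝ) F (fun n => ?_) fun p q => ?_
    · have h1 := (measurable_pi_apply (X := fun _ : ℕ => ℝ) n).comp hF
      rwa [BorelSpace.measurable_eq (α := ℝ)] at h1
    · rw [h p q, tendsto_zero_iff_norm_tendsto_zero]
      simp only [Real.dist_eq, Real.norm_eq_abs]
  refine ⟨?_, hP, key⟩
  rintro ⟨F, hF, h⟩
  refine hP ⟨fun p => F p.1, ?_, fun p q => h p.1 q.1⟩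
  exact hF.comp (comap_measurable Subtype.val)

end Pool.Agent.Results.MP_ec05f5_lc.EssentialNotReducible
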