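import Pool.Agent.Lib.MP_ec05f5_lc.Main

/-!
# Equivalence modulo the Schatten `p`-class is Borel reducible to `ℝ^ℕ / ℓ^p` exactly for `p = 2`

Idea of the proof for `p ≠ 2`. Let `θ` be a Borel reduction, composed with a map which sends a
point of a product of finite grids of matrices to the block diagonal operator with these blocks.

* Baire category: on a suitable sub-product, in which every type of grid is still repeated
  infinitely often, `θ` is additive modulo `ℓ^p` (after Dougherty and Hjorth).
* Pigeonhole: so for every `k` some single grid (of matrices of a size chosen depending on `k`) is
  mapped to `ℓ^p` with distortion at most `4^k` in the directions of matrix units, of rank one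
  sign matrices and of signed shift matrices.
* Smoothing: after averaging over a cube such a map is nearly affine at small scales, and its
  large displacements are sums of small ones. By Khinchine's inequality linear maps to `ℓ^p` do
  not distinguish rank one sign matrices from signed shift matrices, whose Schatten norms are
  `n` and `n^{1/2 + 1/p}`. This bounds the size of the matrices, a contradiction.

For `p = 2` the matrix coefficients give a reduction.
-/

set_option autoImplicit false

namespace Pool.Agent.Results.MP_ec05f5_lc.SchattenReducibleIffTwo

open Pool.Agent.Lib.MP_ec05f5_lc MeasureTheory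

theorem result (H : Type*) [NormedAddCommGroup H] [InnerProductSpace ℂ H] [CompleteSpace H]
    [TopologicalSpace.SeparableSpace H] (hH : ¬ FiniteDimensional ℂ H) (p : ℝ) (hp : 1 ≤ p) :
    (∃ F : (H →L[ℂ] H) → (ℕ → ℝ), Measurable[weakBorel H] F ∧
      ∀ a b : H →L[ℂ] H, IsSchatten p (a - b) ↔ Summable fun n => |F a n - F b n| ^ p) ↔
    p = 2 :=
  reducible_iff hH hp

end Pool.Agent.Results.MP_ec05f5_lc.SchattenReducibleIffTwo
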